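import Pool.Agent.H30.UF

set_option autoImplicit false

namespace Pool.Agent.Results.MP_31ff53_gt.NotK

open Set Pool.Agent.H30.UF

/-- There is a Tychonoff space with a cocompact pretty base of clopen sets which is not a
k-space. -/
theorem result :
    ∃ (X : Type) (_ : TopologicalSpace X), T35Space X ∧
      (∃ 𝓑 : Set (Set X),
        TopologicalSpace.IsTopologicalBasis 𝓑 ∧
        (∀ B ∈ 𝓑, IsClopen B) ∧
        (∀ C D : Set (Set X), C ⊆ 𝓑 → C.Countable → D ⊆ 𝓑 →
          (∀ U ∈ C, ∀ V ∈ D, Disjoint U V) →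
          ∃ W ∈ 𝓑, (∀ U ∈ C, U ⊆ W) ∧ ∀ V ∈ D, Disjoint W V) ∧
        @CompactSpace X (TopologicalSpace.generateFrom ((fun B : Set X => (closure B)ᶜ) '' 𝓑))) ∧
      ∃ A : Set X, (∀ K : Set X, IsCompact K → IsClosed (Subtype.val ⁻¹' A : Set K)) ∧
        ¬ IsClosed A := by
  refine ⟨X, inferInstance, inferInstance, ⟨hat '' L, basis, ?_, pretty, cocompact⟩, {ω}ᶜ,
    fun K hK => ?_, fun h => ?_⟩
  · rintro _ ⟨B, -, rfl⟩
    exact hat_clopen B
  · convert (kclosed hK).preimage (continuous_subtype_val (p := fun x => x ∈ K)) using 1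
    ext x
    simp
  · have h1 := mem_closure_diff (K := univ) Filter.univ_mem
    rw [← compl_eq_univ_sdiff, h.closure_eq] at h1
    exact h1 rfl

end Pool.Agent.Results.MP_31ff53_gt.NotK
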